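import Pool.Agent.H741.RS.PubM
import Pool.Agent.H741.RS.Stm

/-!
# Project RS: `frac A` is a holomorphic automorphism of the ball (`S_HOLA`)
-/

set_option autoImplicit false
open scoped ComplexConjugate

namespace Pool.Agent.H53.RS.HOLA

open Pool.Agent.H741.RS

theorem differentiable_lin {n : ℕ} (A : (ℂ × V n) →ₗ[ℂ] (ℂ × V n)) :
    Differentiable ℂ (fun z : V n => A (1, z)) := by
  have h1 : Differentiable ℂ (fun z : V n => ((1 : ℂ), z)) :=
    (differentiable_const (1 : ℂ)).prodMk differentiable_id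
  exact (LinearMap.toContinuousLinearMap A).differentiable.comp h1

theorem differentiableOn_frac {n : ℕ} (A : (ℂ × V n) →ₗ[ℂ] (ℂ × V n))
    (h : ∀ z ∈ Bn n, (A (1, z)).1 ≠ 0) : DifferentiableOn ℂ (frac A) (Bn n) := by
  have h1 : DifferentiableOn ℂ (fun z : V n => (A (1, z)).1) (Bn n) :=
    (differentiable_lin A).fst.differentiableOn
  have h2 : DifferentiableOn ℂ (fun z : V n => (A (1, z)).2) (Bn n) :=
    (differentiable_lin A).snd.differentiableOn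
  exact (h1.inv h).smul h2

theorem frac_frac {n : ℕ} {A A' : (ℂ × V n) →ₗ[ℂ] (ℂ × V n)} (h : A' ∘ₗ A = LinearMap.id) {z : V n}
    (h0 : (A (1, z)).1 ≠ 0) (h1 : A (1, z) = (A (1, z)).1 • ((1 : ℂ), frac A z)) :
    frac A' (frac A z) = z := by
  obtain ⟨c, hc⟩ : ∃ c : ℂ, c = (A (1, z)).1 := ⟨_, rfl⟩
  rw [← hc] at h0 h1
  have h2 : A' (A (1, z)) = (1, z) := by
    have := LinearMap.congr_fun h (1, z)
    exact this
  rw [h1, map_smul] at h2
  have h3 : A' ((1 : ℂ), frac A z) = c⁻¹ • ((1 : ℂ), z) := by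
    rw [← h2, smul_smul, inv_mul_cancel₀ h0, one_smul]
  have h4 : frac A' (frac A z) =
      ((A' ((1 : ℂ), frac A z)).1)⁻¹ • (A' ((1 : ℂ), frac A z)).2 := rfl
  rw [h4, h3]
  show (c⁻¹ • (1 : ℂ))⁻¹ • (c⁻¹ • z) = z
  rw [smul_eq_mul, mul_one, inv_inv, smul_smul, mul_inv_cancel₀ h0, one_smul]

theorem t_HOLA (h1 : S_PRES) : S_HOLA := by
  rintro n γ ⟨A, hA, hγ⟩
  obtain ⟨⟨A', hA', e1, e2⟩, h2⟩ := h1 n A hA
  obtain ⟨-, h2'⟩ := h1 n A' hA'
  refine ⟨(differentiableOn_frac A fun z hz => (h2 z hz).1).congr hγ, fun z hz => ?_, frac A',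
    differentiableOn_frac A' fun z hz => (h2' z hz).1, fun z hz => (h2' z hz).2.1,
    fun z hz => ⟨?_, ?_⟩⟩
  · rw [hγ z hz]
    exact (h2 z hz).2.1
  · rw [hγ z hz]
    exact frac_frac e1 (h2 z hz).1 (h2 z hz).2.2.1
  · rw [hγ _ (h2' z hz).2.1]
    exact frac_frac e2 (h2' z hz).1 (h2' z hz).2.2.1

end Pool.Agent.H53.RS.HOLA
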