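import Pool.Agent.H741.RS.Stm

/-!
# Project RS: small perturbations are sums of squares (`S_POS`)

Write `T z w = ⟨z, w⟩`, `S = ∑ j ≤ d, T ^ j`. For a polynomial `a` of degree at most `d` there is `C` such that
`C S - |a|²` is a sum of squares, so for a Hermitian kernel `H` of degree at most `d` there is `C` such that
`C S - H` is a sum of squares. Finally `1 - (1 - T) u0 = ∑ j ≤ k, T ^ j / ((j+1)(j+2)) + T ^ (k+1) / (k+2)`.
-/

set_option autoImplicit false
open scoped ComplexConjugate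

namespace Pool.Agent.H53.RS

open Pool.Agent.H741.RS Finset

variable {n : ℕ}

theorem ev_add (P Q : MvPolynomial (Fin n) ℂ) (z : V n) : ev (P + Q) z = ev P z + ev Q z := by
  unfold ev; rw [map_add]

theorem ev_sub (P Q : MvPolynomial (Fin n) ℂ) (z : V n) : ev (P - Q) z = ev P z - ev Q z := by
  unfold ev; rw [map_sub]

theorem ev_mul (P Q : MvPolynomial (Fin n) ℂ) (z : V n) : ev (P * Q) z = ev P z * ev Q z := by
  unfold ev; rw [map_mul]

theorem ev_C (c : ℂ) (z : V n) : ev (MvPolynomial.C c) z = c := by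
  unfold ev; rw [MvPolynomial.eval_C]

theorem ev_X (i : Fin n) (z : V n) : ev (MvPolynomial.X i) z = z i := by
  unfold ev; rw [MvPolynomial.eval_X]

/-- sums of squares of polynomials of degree at most `d` -/
def SOS (d : ℕ) (K : V n → V n → ℂ) : Prop :=
  ∃ (ι : Type) (_ : Fintype ι) (p : ι → MvPolynomial (Fin n) ℂ), (∀ i, (p i).totalDegree ≤ d) ∧
    ∀ z w, K z w = ∑ i, ev (p i) z * conj (ev (p i) w)

theorem SOS.congr {d : ℕ} {K L : V n → V n → ℂ} (h : SOS d K) (e : ∀ z w, L z w = K z w) :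
    SOS d L := by
  obtain ⟨ι, hι, p, hp, hK⟩ := h
  exact ⟨ι, hι, p, hp, fun z w => (e z w).trans (hK z w)⟩

theorem SOS.mono {d d' : ℕ} {K : V n → V n → ℂ} (h : SOS d K) (e : d ≤ d') : SOS d' K := by
  obtain ⟨ι, hι, p, hp, hK⟩ := h
  exact ⟨ι, hι, p, fun i => (hp i).trans e, hK⟩

theorem SOS.zero (d : ℕ) : SOS d (fun _ _ : V n => (0 : ℂ)) :=
  ⟨Empty, inferInstance, fun _ => 0, fun i => i.elim, fun z w => by simp⟩

theorem SOS.single {d : ℕ} {a : MvPolynomial (Fin n) ℂ} (ha : a.totalDegree ≤ d) :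
    SOS d (fun z w : V n => ev a z * conj (ev a w)) :=
  ⟨Unit, inferInstance, fun _ => a, fun _ => ha, fun z w => by simp⟩

theorem SOS.add {d : ℕ} {K L : V n → V n → ℂ} (hK : SOS d K) (hL : SOS d L) :
    SOS d (fun z w => K z w + L z w) := by
  obtain ⟨ι, hι, p, hp, hK⟩ := hK
  obtain ⟨κ, hκ, q, hq, hL⟩ := hL
  refine ⟨ι ⊕ κ, inferInstance, Sum.elim p q, ?_, fun z w => ?_⟩
  · rintro (i | i)
    · exact hp i
    · exact hq i
  · beta_reduce
    rw [Fintype.sum_sum_type, hK, hL]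
    rfl

theorem SOS.smul {d : ℕ} {K : V n → V n → ℂ} (hK : SOS d K) {c : ℝ} (hc : 0 ≤ c) :
    SOS d (fun z w => (c : ℂ) * K z w) := by
  obtain ⟨ι, hι, p, hp, hK⟩ := hK
  refine ⟨ι, hι, fun i => MvPolynomial.C ((√c : ℝ) : ℂ) * p i, fun i => ?_, fun z w => ?_⟩
  · refine (MvPolynomial.totalDegree_mul _ _).trans ?_
    rw [MvPolynomial.totalDegree_C, zero_add]
    exact hp i
  · beta_reduce
    rw [hK, mul_sum]
    refine sum_congr rfl fun i _ => ?_
    rw [ev_mul, ev_mul, ev_C, ev_C, map_mul, Complex.conj_ofReal]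
    have h1 : (c : ℂ) = ((√c : ℝ) : ℂ) * ((√c : ℝ) : ℂ) := by
      rw [← Complex.ofReal_mul, Real.mul_self_sqrt hc]
    rw [h1]
    ring

theorem SOS.mul {d d' : ℕ} {K L : V n → V n → ℂ} (hK : SOS d K) (hL : SOS d' L) :
    SOS (d + d') (fun z w => K z w * L z w) := by
  obtain ⟨ι, hι, p, hp, hK⟩ := hK
  obtain ⟨κ, hκ, q, hq, hL⟩ := hL
  refine ⟨ι × κ, inferInstance, fun i => p i.1 * q i.2, fun i => ?_, fun z w => ?_⟩
  · exact (MvPolynomial.totalDegree_mul _ _).trans (add_le_add (hp i.1) (hq i.2))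
  · beta_reduce
    rw [Fintype.sum_prod_type, hK, hL, sum_mul_sum]
    refine sum_congr rfl fun i _ => sum_congr rfl fun j _ => ?_
    rw [ev_mul, ev_mul, map_mul]
    ring

theorem SOS.finsum {β : Type} {d : ℕ} (s : Finset β) {K : β → V n → V n → ℂ}
    (h : ∀ b ∈ s, SOS d (K b)) : SOS d (fun z w => ∑ b ∈ s, K b z w) := by
  classical
  induction s using Finset.induction_on with
  | empty => exact (SOS.zero d).congr fun z w => by simp
  | insert b s hb ih =>
    refine ((h b (mem_insert_self _ _)).add (ih fun b' hb' => h b' (mem_insert_of_mem hb'))).congr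
      fun z w => ?_
    rw [sum_insert hb]

/-- the scalar product in coordinates -/
theorem hp_eq (z w : V n) : hp z w = ∑ i, z i * conj (w i) := by
  unfold hp
  rw [PiLp.inner_apply]
  rfl

theorem hp_symm (z w : V n) : hp w z = conj (hp z w) := by
  rw [hp_eq, hp_eq, map_sum]
  refine sum_congr rfl fun i _ => ?_
  rw [map_mul, Complex.conj_conj, mul_comm]

theorem totalDegree_X_le (i : Fin n) : (MvPolynomial.X i : MvPolynomial (Fin n) ℂ).totalDegree ≤ 1 := by
  rw [MvPolynomial.totalDegree_X]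

theorem sos_hp : SOS 1 (hp : V n → V n → ℂ) :=
  (SOS.finsum univ fun i _ => SOS.single (totalDegree_X_le i)).congr fun z w => by
    rw [hp_eq]
    refine sum_congr rfl fun i _ => ?_
    rw [ev_X, ev_X]

theorem sos_hp_sub (i : Fin n) : SOS 1 (fun z w : V n => hp z w - z i * conj (w i)) :=
  (SOS.finsum (univ.erase i) fun i _ => SOS.single (totalDegree_X_le i)).congr fun z w => by
    rw [hp_eq, ← add_sum_erase univ (fun i => z i * conj (w i)) (mem_univ i), add_sub_cancel_left]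
    refine sum_congr rfl fun i _ => ?_
    rw [ev_X, ev_X]

theorem sos_one (d : ℕ) : SOS d (fun _ _ : V n => (1 : ℂ)) :=
  (SOS.single (a := MvPolynomial.C 1) (by rw [MvPolynomial.totalDegree_C]; exact Nat.zero_le _)).congr
    fun z w => by rw [ev_C, ev_C, map_one, mul_one]

theorem sos_pow (j : ℕ) : SOS j (fun z w : V n => hp z w ^ j) := by
  induction j with
  | zero => exact (sos_one 0).congr fun z w => by rw [pow_zero]
  | succ j ih => exact (ih.mul sos_hp).congr fun z w => by rw [pow_succ]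

theorem ev_monomial_add (α : Fin n →₀ ℕ) (i : Fin n) (z : V n) :
    ev (MvPolynomial.monomial (α + Finsupp.single i 1) (1 : ℂ)) z =
      ev (MvPolynomial.monomial α (1 : ℂ)) z * z i := by
  have h1 : MvPolynomial.monomial (α + Finsupp.single i 1) (1 : ℂ) =
      MvPolynomial.monomial α (1 : ℂ) * MvPolynomial.X i := by
    rw [MvPolynomial.X, MvPolynomial.monomial_mul, mul_one]
  rw [h1, ev_mul, ev_X]

/-- domination of a monomial -/
theorem sos_monomial : ∀ (j : ℕ) (α : Fin n →₀ ℕ), α.degree = j →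
    SOS j (fun z w : V n => hp z w ^ j -
      ev (MvPolynomial.monomial α (1 : ℂ)) z * conj (ev (MvPolynomial.monomial α (1 : ℂ)) w)) := by
  intro j
  induction j with
  | zero =>
    intro α hα
    rw [Finsupp.degree_eq_zero_iff] at hα
    subst hα
    refine (SOS.zero 0).congr fun z w => ?_
    have h1 : ∀ z : V n, ev (MvPolynomial.monomial (0 : Fin n →₀ ℕ) (1 : ℂ)) z = 1 := fun z => ev_C 1 z
    rw [h1, h1, map_one, mul_one, pow_zero, sub_self]
  | succ j ih =>
    intro α hα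
    obtain ⟨i, hi⟩ : ∃ i, α i ≠ 0 := by
      by_contra hc
      push Not at hc
      have h1 : α = 0 := Finsupp.ext hc
      rw [h1, map_zero] at hα
      omega
    obtain ⟨α', hα'⟩ : ∃ α' : Fin n →₀ ℕ, α = α' + Finsupp.single i 1 := by
      refine ⟨α - Finsupp.single i 1, ?_⟩
      rw [tsub_add_cancel_of_le]
      rw [Finsupp.single_le_iff]
      omega
    subst hα'
    have h1 : α'.degree = j := by
      rw [map_add, Finsupp.degree_single] at hα
      omega
    have h2 := (sos_pow (n := n) j).mul (sos_hp_sub i)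
    have h3 := (ih α' h1).mul (SOS.single (totalDegree_X_le i))
    refine (h2.add h3).congr fun z w => ?_
    rw [ev_monomial_add, ev_monomial_add, ev_X, ev_X, map_mul]
    ring

/-- the sum of the powers -/
noncomputable def S (d : ℕ) (z w : V n) : ℂ := ∑ j ∈ range (d + 1), hp z w ^ j

theorem sos_S (d : ℕ) : SOS d (S d : V n → V n → ℂ) :=
  SOS.finsum (range (d + 1)) fun j hj => (sos_pow j).mono (Nat.lt_succ_iff.1 (mem_range.1 hj))

/-- polynomials of degree at most `d` are dominated -/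
def Dom (d : ℕ) (a : MvPolynomial (Fin n) ℂ) : Prop :=
  a.totalDegree ≤ d ∧ ∃ C : ℝ, 0 ≤ C ∧ SOS d (fun z w : V n => (C : ℂ) * S d z w - ev a z * conj (ev a w))

theorem dom_zero (d : ℕ) : Dom d (0 : MvPolynomial (Fin n) ℂ) := by
  refine ⟨by simp, 0, le_rfl, (SOS.zero d).congr fun z w => ?_⟩
  unfold ev
  simp

theorem dom_add {d : ℕ} {a b : MvPolynomial (Fin n) ℂ} (ha : Dom d a) (hb : Dom d b) :
    Dom d (a + b) := by
  obtain ⟨ha, C, hC, h1⟩ := ha
  obtain ⟨hb, C', hC', h2⟩ := hb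
  refine ⟨(MvPolynomial.totalDegree_add _ _).trans (max_le ha hb), 2 * C + 2 * C', by positivity, ?_⟩
  have h3 : SOS d (fun z w : V n => ev (a - b) z * conj (ev (a - b) w)) :=
    SOS.single ((MvPolynomial.totalDegree_sub _ _).trans (max_le ha hb))
  refine (((h1.smul (c := 2) (by norm_num)).add (h2.smul (c := 2) (by norm_num))).add h3).congr
    fun z w => ?_
  simp only [ev_add, ev_sub, map_add, map_sub]
  push_cast
  ring

theorem dom_monomial {d : ℕ} {α : Fin n →₀ ℕ} (hα : α.degree ≤ d) (c : ℂ) :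
    Dom d (MvPolynomial.monomial α c) := by
  have h0 : (MvPolynomial.monomial α c : MvPolynomial (Fin n) ℂ).totalDegree ≤ d := by
    refine (MvPolynomial.totalDegree_monomial_le _ _).trans ?_
    exact hα
  refine ⟨h0, ‖c‖ ^ 2, by positivity, ?_⟩
  have h1 : SOS d (fun z w : V n => S d z w -
      ev (MvPolynomial.monomial α (1 : ℂ)) z * conj (ev (MvPolynomial.monomial α (1 : ℂ)) w)) := by
    have h2 : SOS d (fun z w : V n => ∑ j ∈ (range (d + 1)).erase α.degree, hp z w ^ j) :=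
      SOS.finsum _ fun j hj => (sos_pow j).mono
        (Nat.lt_succ_iff.1 (mem_range.1 (mem_of_mem_erase hj)))
    refine (h2.add ((sos_monomial α.degree α rfl).mono hα)).congr fun z w => ?_
    unfold S
    rw [← add_sum_erase (range (d + 1)) (fun j => hp z w ^ j)
      (mem_range.2 (Nat.lt_succ_iff.2 hα))]
    ring
  refine (h1.smul (c := ‖c‖ ^ 2) (by positivity)).congr fun z w => ?_
  have h3 : ∀ z : V n, ev (MvPolynomial.monomial α c) z =
      c * ev (MvPolynomial.monomial α (1 : ℂ)) z := by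
    intro z
    have h4 : (MvPolynomial.monomial α c : MvPolynomial (Fin n) ℂ) =
        MvPolynomial.C c * MvPolynomial.monomial α 1 := by
      rw [MvPolynomial.C_mul_monomial, mul_one]
    rw [h4, ev_mul, ev_C]
  have h5 : ((‖c‖ ^ 2 : ℝ) : ℂ) = c * conj c := by
    rw [Complex.mul_conj, Complex.normSq_eq_norm_sq]
  rw [h3, h3, map_mul, h5]
  ring

theorem dom {d : ℕ} {a : MvPolynomial (Fin n) ℂ} (ha : a.totalDegree ≤ d) : Dom d a := by
  classical
  have h1 : ∀ s : Finset (Fin n →₀ ℕ), s ⊆ a.support →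
      Dom d (∑ α ∈ s, MvPolynomial.monomial α (a.coeff α)) := by
    intro s
    induction s using Finset.induction_on with
    | empty => intro _; rw [sum_empty]; exact dom_zero d
    | insert α s hα ih =>
      intro hs
      rw [sum_insert hα]
      refine dom_add (dom_monomial ?_ _) (ih fun β hβ => hs (mem_insert_of_mem hβ))
      exact (MvPolynomial.le_totalDegree (hs (mem_insert_self _ _))).trans ha
  have h2 := h1 a.support Subset.rfl
  rw [MvPolynomial.support_sum_monomial_coeff] at h2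
  exact h2

/-- domination of Hermitian kernels -/
theorem dom_ker {d : ℕ} {H : V n → V n → ℂ} (hH : Herm H) (hk : Ker d d H) :
    ∃ C : ℝ, 0 ≤ C ∧ SOS d (fun z w : V n => (C : ℂ) * S d z w - H z w) := by
  obtain ⟨m, a, b, hab, hH'⟩ := hk
  choose ha A hA hA' using fun i => dom (hab i).1
  choose hb B hB hB' using fun i => dom (hab i).2
  refine ⟨∑ i, (1 / 2) * (A i + B i), sum_nonneg fun i _ => by
    have := hA i
    have := hB i
    positivity, ?_⟩
  have h1 : ∀ i ∈ (univ : Finset (Fin m)), SOS d (fun z w : V n => ((1 / 2 : ℝ) : ℂ) *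
      ((((A i : ℂ) * S d z w - ev (a i) z * conj (ev (a i) w)) +
        ((B i : ℂ) * S d z w - ev (b i) z * conj (ev (b i) w))) +
        ev (a i - b i) z * conj (ev (a i - b i) w))) := fun i _ =>
    (((hA' i).add (hB' i)).add (SOS.single ((MvPolynomial.totalDegree_sub _ _).trans
      (max_le (ha i) (hb i))))).smul (by norm_num)
  refine (SOS.finsum univ h1).congr fun z w => ?_
  have h2 : H z w = (1 / 2) * (H z w + conj (H w z)) := by
    rw [hH z w, Complex.conj_conj]
    ring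
  rw [h2, hH' z w, hH' w z, map_sum, ← sum_add_distrib, mul_sum]
  push_cast
  rw [sum_mul, ← sum_sub_distrib]
  refine sum_congr rfl fun i _ => ?_
  rw [ev_sub, ev_sub, map_sub, map_mul, Complex.conj_conj]
  ring

/-- the basic kernel -/
theorem one_sub_u0 (k : ℕ) (z w : V n) : 1 - (1 - hp z w) * u0 k z w =
    (∑ j ∈ range (k + 1), (1 / (((j : ℂ) + 1) * ((j : ℂ) + 2))) * hp z w ^ j) +
      (1 / ((k : ℂ) + 2)) * hp z w ^ (k + 1) := by
  unfold u0
  induction k with
  | zero =>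
    rw [zero_add, sum_range_one, sum_range_one]
    push_cast
    ring
  | succ k ih =>
    rw [sum_range_succ, sum_range_succ _ (k + 1), mul_add, ← sub_sub, ih]
    have h1 : ((k : ℂ) + 2) ≠ 0 := by exact_mod_cast (Nat.succ_ne_zero (k + 1))
    have h2 : ((k : ℂ) + 3) ≠ 0 := by exact_mod_cast (Nat.succ_ne_zero (k + 2))
    have h3 : ((k : ℂ) + 1 + 1) ≠ 0 := by
      have : ((k : ℂ) + 1 + 1) = (k : ℂ) + 2 := by ring
      rw [this]; exact h1
    have h4 : ((k : ℂ) + 1 + 2) ≠ 0 := by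
      have : ((k : ℂ) + 1 + 2) = (k : ℂ) + 3 := by ring
      rw [this]; exact h2
    push_cast
    field_simp
    ring

theorem t_POS (h1 : S_KCL) : S_POS := by
  intro n k v hn hv hk
  -- the Hermitian kernel `H = (1 - T) v`
  have hH : Herm (fun z w : V n => (1 - hp z w) * v z w) := by
    intro z w
    show (1 - hp w z) * v w z = conj ((1 - hp z w) * v z w)
    rw [map_mul, map_sub, map_one, ← hp_symm z w, hv z w]
  have hkH : Ker (k + 1) (k + 1) (fun z w : V n => (1 - hp z w) * v z w) := by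
    have e1 : Ker 1 1 (fun _ _ : V n => (1 : ℂ)) := by
      refine ⟨1, fun _ => MvPolynomial.C 1, fun _ => MvPolynomial.C 1, fun _ => ?_, fun z w => ?_⟩
      · rw [MvPolynomial.totalDegree_C]
        exact ⟨Nat.zero_le _, Nat.zero_le _⟩
      · rw [Fin.sum_univ_one, ev_C, ev_C, map_one, mul_one]
    have e2 : Ker 1 1 (fun z w : V n => hp z w) :=
      (h1 n 1 1).2.2.2.2.1 (ContinuousLinearMap.id ℂ (V n))
    have e3 := (h1 n 1 1).1 _ _ e1 e2 (-1)
    have e4 := (h1 n 1 1).2.2.2.1 _ v k k e3 hk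
    rw [add_comm 1 k] at e4
    obtain ⟨m, a, b, hab, he⟩ := e4
    refine ⟨m, a, b, hab, fun z w => ?_⟩
    rw [← he z w]
    ring
  obtain ⟨C, hC, hCS⟩ := dom_ker hH hkH
  -- the constants
  obtain ⟨δ, hδd⟩ : ∃ δ : ℝ, δ = 1 / (((k : ℝ) + 2) * ((k : ℝ) + 3)) := ⟨_, rfl⟩
  have hk0 : (0 : ℝ) ≤ k := Nat.cast_nonneg k
  have hδ : 0 < δ := by rw [hδd]; positivity
  refine ⟨δ / (C + 1), by positivity, fun ε hε hεδ => ?_⟩
  have hεC : 0 ≤ δ - ε * C := by
    rw [lt_div_iff₀ (by positivity)] at hεδ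
    nlinarith
  obtain ⟨i0⟩ : Nonempty (Fin n) := ⟨⟨0, hn⟩⟩
  obtain ⟨e, hed⟩ : ∃ e : ℝ, e = 1 / ((k : ℝ) + 3) := ⟨_, rfl⟩
  have he : 0 < e := by rw [hed]; positivity
  have hde : ∀ j : ℕ, j ≤ k → 0 ≤ 1 / (((j : ℝ) + 1) * ((j : ℝ) + 2)) - δ := by
    intro j hj
    have hj' : (j : ℝ) ≤ k := by exact_mod_cast hj
    have hj0 : (0 : ℝ) ≤ j := Nat.cast_nonneg j
    rw [sub_nonneg, hδd]
    apply one_div_le_one_div_of_le
    · positivity
    · nlinarith
  have htop : 1 / ((k : ℝ) + 2) = δ + e := by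
    rw [hδd, hed]
    field_simp
    ring
  -- the sum of squares
  have s1 : SOS (k + 1) (fun z w : V n => (ε : ℂ) * ((C : ℂ) * S (k + 1) z w - (1 - hp z w) * v z w)) :=
    hCS.smul hε.le
  have s2 : SOS (k + 1) (fun z w : V n => ((δ - ε * C : ℝ) : ℂ) * S (k + 1) z w) :=
    (sos_S (k + 1)).smul hεC
  have s3 : SOS (k + 1) (fun z w : V n => ∑ j ∈ range (k + 1),
      ((1 / (((j : ℝ) + 1) * ((j : ℝ) + 2)) - δ : ℝ) : ℂ) * hp z w ^ j) :=
    SOS.finsum _ fun j hj => ((sos_pow j).mono (mem_range.1 hj).le).smul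
      (hde j (Nat.lt_succ_iff.1 (mem_range.1 hj)))
  have hdeg : (Finsupp.single i0 (k + 1)).degree = k + 1 := Finsupp.degree_single _ _
  have s4 := (sos_monomial (n := n) (k + 1) (Finsupp.single i0 (k + 1)) hdeg).smul he.le
  obtain ⟨ι, hι, p, hp1, hp2⟩ := ((s1.add s2).add s3).add s4
  -- the polynomial of top degree
  obtain ⟨g, hg⟩ : ∃ g : MvPolynomial (Fin n) ℂ,
      g = MvPolynomial.monomial (Finsupp.single i0 (k + 1)) ((√e : ℝ) : ℂ) := ⟨_, rfl⟩
  have hse : ((√e : ℝ) : ℂ) ≠ 0 := by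
    rw [Complex.ofReal_ne_zero]
    exact (Real.sqrt_pos.2 he).ne'
  have hgdeg : g.totalDegree = k + 1 := by
    rw [hg, MvPolynomial.totalDegree_monomial _ hse]
    exact Finsupp.sum_single_index rfl
  have hgev : ∀ z w : V n, ev g z * conj (ev g w) = (e : ℂ) *
      (ev (MvPolynomial.monomial (Finsupp.single i0 (k + 1)) (1 : ℂ)) z *
        conj (ev (MvPolynomial.monomial (Finsupp.single i0 (k + 1)) (1 : ℂ)) w)) := by
    intro z w
    have h4 : g = MvPolynomial.C ((√e : ℝ) : ℂ) *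
        MvPolynomial.monomial (Finsupp.single i0 (k + 1)) 1 := by
      rw [hg, MvPolynomial.C_mul_monomial, mul_one]
    have h5 : (e : ℂ) = ((√e : ℝ) : ℂ) * ((√e : ℝ) : ℂ) := by
      rw [← Complex.ofReal_mul, Real.mul_self_sqrt he.le]
    rw [h4, ev_mul, ev_mul, ev_C, ev_C, map_mul, Complex.conj_ofReal, h5]
    ring
  -- the family
  obtain ⟨q, hq⟩ : ∃ q : Option ι → MvPolynomial (Fin n) ℂ, q = fun o => o.elim g p := ⟨_, rfl⟩
  have hq1 : ∀ o, (q o).totalDegree ≤ k + 1 := by
    rintro (_ | j)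
    · rw [hq]
      exact hgdeg.le
    · rw [hq]
      exact hp1 j
  have hq2 : (q none).totalDegree = k + 1 := by
    rw [hq]
    exact hgdeg
  have eqv : Option ι ≃ Fin (Fintype.card (Option ι)) := Fintype.equivFin _
  refine ⟨Fintype.card (Option ι), fun i => q (eqv.symm i), fun i => hq1 _, ⟨eqv none, ?_⟩,
    fun z w => ?_⟩
  · beta_reduce
    rw [Equiv.symm_apply_apply]
    exact hq2
  · beta_reduce
    rw [Equiv.sum_comp eqv.symm (fun o => ev (q o) z * conj (ev (q o) w)), Fintype.sum_option, hq]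
    show ev g z * conj (ev g w) + ∑ i, ev (p i) z * conj (ev (p i) w) = _
    rw [← hp2 z w, hgev z w]
    have e5 : (1 : ℂ) - (1 - hp z w) * (u0 k z w + (ε : ℂ) * v z w) =
        (1 - (1 - hp z w) * u0 k z w) - (ε : ℂ) * ((1 - hp z w) * v z w) := by ring
    rw [e5, one_sub_u0]
    have e6 : S (k + 1) z w = (∑ j ∈ range (k + 1), hp z w ^ j) + hp z w ^ (k + 1) := by
      unfold S
      rw [sum_range_succ]
    have e7 : (∑ j ∈ range (k + 1), (1 / (((j : ℂ) + 1) * ((j : ℂ) + 2))) * hp z w ^ j) =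
        (∑ j ∈ range (k + 1), ((1 / (((j : ℝ) + 1) * ((j : ℝ) + 2)) - δ : ℝ) : ℂ) * hp z w ^ j) +
          (δ : ℂ) * ∑ j ∈ range (k + 1), hp z w ^ j := by
      rw [mul_sum, ← sum_add_distrib]
      refine sum_congr rfl fun j _ => ?_
      push_cast
      ring
    have e8 : (1 / ((k : ℂ) + 2)) = (δ : ℂ) + (e : ℂ) := by
      have := congrArg (fun x : ℝ => (x : ℂ)) htop
      push_cast at this
      exact this
    beta_reduce
    rw [e7, e8, e6]
    push_cast
    ring

end Pool.Agent.H53.RS
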